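import Mathlib
import Pool.Agent.W488.IW.Stm

set_option autoImplicit false

namespace Pool.Agent.W357.IW.Rot

open Pool.Agent.W488.IW

theorem conj_unit {f : ℂ} (hf : ‖f‖ = 1) : (starRingEnd ℂ) f = f⁻¹ := (Complex.inv_eq_conj hf).symm

theorem unit_ne {f : ℂ} (hf : ‖f‖ = 1) : f ≠ 0 := by
  intro h
  rw [h, norm_zero] at hf
  exact zero_ne_one hf

theorem lam_rot (X Y ρ τ ξ ζ ϑ x y : ℝ) (hx : 0 ≤ x) (hy : 0 ≤ y) (f g P Q R : ℂ)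
    (hf : ‖f‖ = 1) (hg : ‖g‖ = 1) :
    Lam X Y ρ τ ξ ζ ϑ (x * (f * g⁻¹)) (y * (f * g)) (P * (f * g⁻¹ ^ 2)) (Q * f)
      (R * (f * g ^ 2)) = f⁻¹ * Lam X Y ρ τ ξ ζ ϑ x y P Q R := by
  have hf0 := unit_ne hf
  have hg0 := unit_ne hg
  have n1 : ‖(x : ℂ) * (f * g⁻¹)‖ = x := by
    rw [norm_mul, norm_mul, norm_inv, hf, hg, Complex.norm_real, Real.norm_of_nonneg hx]; simp
  have n2 : ‖(y : ℂ) * (f * g)‖ = y := by
    rw [norm_mul, norm_mul, hf, hg, Complex.norm_real, Real.norm_of_nonneg hy]; simp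
  have n3 : ‖(x : ℂ)‖ = x := by rw [Complex.norm_real, Real.norm_of_nonneg hx]
  have n4 : ‖(y : ℂ)‖ = y := by rw [Complex.norm_real, Real.norm_of_nonneg hy]
  unfold Lam
  rw [n1, n2, n3, n4]
  simp only [map_mul, map_pow, map_inv₀, Complex.conj_ofReal, conj_unit hf, conj_unit hg, inv_inv]
  generalize (((ρ / 2 + τ - ξ) / (2 * X ^ 2) : ℝ) : ℂ) = c1
  generalize (((ρ / 2 + τ - ζ) / (2 * Y ^ 2) : ℝ) : ℂ) = c2
  generalize (((ρ / 2 - τ) / (2 * X * Y) : ℝ) : ℂ) = c3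
  generalize ((ξ + ζ + 2 * ϑ : ℝ) : ℂ) = c4
  generalize (starRingEnd ℂ) P = P'
  generalize (starRingEnd ℂ) Q = Q'
  generalize (starRingEnd ℂ) R = R'
  field_simp

theorem oa_rot (X Y τ ξ E ϑ x y : ℝ) (hx : 0 ≤ x) (f g P Q R : ℂ)
    (hf : ‖f‖ = 1) (hg : ‖g‖ = 1) :
    OA X Y τ ξ E ϑ (x * (f * g⁻¹)) (y * (f * g)) (P * (f * g⁻¹ ^ 2)) (Q * f)
      (R * (f * g ^ 2)) = OA X Y τ ξ E ϑ x y P Q R := by
  have hf0 := unit_ne hf
  have hg0 := unit_ne hg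
  have n1 : ‖(x : ℂ) * (f * g⁻¹)‖ = x := by
    rw [norm_mul, norm_mul, norm_inv, hf, hg, Complex.norm_real, Real.norm_of_nonneg hx]; simp
  have n3 : ‖(x : ℂ)‖ = x := by rw [Complex.norm_real, Real.norm_of_nonneg hx]
  have n5 : ‖P * (f * g⁻¹ ^ 2)‖ = ‖P‖ := by
    rw [norm_mul, norm_mul, norm_pow, norm_inv, hf, hg]; simp
  have n6 : ‖Q * f‖ = ‖Q‖ := by
    rw [norm_mul, hf]; simp
  unfold OA
  rw [n1, n3, n5, n6]
  congr 3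
  simp only [map_mul, map_pow, map_inv₀, Complex.conj_ofReal, conj_unit hf, conj_unit hg, inv_inv]
  generalize (starRingEnd ℂ) P = P'
  generalize (starRingEnd ℂ) Q = Q'
  generalize (starRingEnd ℂ) R = R'
  field_simp

theorem ob_rot (X Y τ ζ G ϑ x y : ℝ) (hy : 0 ≤ y) (f g P Q R : ℂ)
    (hf : ‖f‖ = 1) (hg : ‖g‖ = 1) :
    OB X Y τ ζ G ϑ (x * (f * g⁻¹)) (y * (f * g)) (P * (f * g⁻¹ ^ 2)) (Q * f)
      (R * (f * g ^ 2)) = OB X Y τ ζ G ϑ x y P Q R := by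
  have hf0 := unit_ne hf
  have hg0 := unit_ne hg
  have n2 : ‖(y : ℂ) * (f * g)‖ = y := by
    rw [norm_mul, norm_mul, hf, hg, Complex.norm_real, Real.norm_of_nonneg hy]; simp
  have n4 : ‖(y : ℂ)‖ = y := by rw [Complex.norm_real, Real.norm_of_nonneg hy]
  have n5 : ‖R * (f * g ^ 2)‖ = ‖R‖ := by
    rw [norm_mul, norm_mul, norm_pow, hf, hg]; simp
  have n6 : ‖Q * f‖ = ‖Q‖ := by
    rw [norm_mul, hf]; simp
  unfold OB
  rw [n2, n4, n5, n6]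
  congr 3
  simp only [map_mul, map_pow, map_inv₀, Complex.conj_ofReal, conj_unit hf, conj_unit hg, inv_inv]
  generalize (starRingEnd ℂ) P = P'
  generalize (starRingEnd ℂ) Q = Q'
  generalize (starRingEnd ℂ) R = R'
  field_simp

theorem vel_rot (X Y n x y : ℝ) (f g P Q R : ℂ) (hf : ‖f‖ = 1) (hg : ‖g‖ = 1) :
    (n * (Q * f) + (starRingEnd ℂ) (x * (f * g⁻¹)) * (y * (f * g)) / ((X * Y : ℝ) : ℂ) *
        (P * (f * g⁻¹ ^ 2))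
      + (starRingEnd ℂ) ((starRingEnd ℂ) (x * (f * g⁻¹)) * (y * (f * g)) / ((X * Y : ℝ) : ℂ)) *
        (R * (f * g ^ 2)))
    = f * (n * Q + ((x * y / (X * Y) : ℝ) : ℂ) * P + ((x * y / (X * Y) : ℝ) : ℂ) * R) := by
  have hf0 := unit_ne hf
  have hg0 := unit_ne hg
  simp only [map_mul, map_inv₀, Complex.conj_ofReal, conj_unit hf, conj_unit hg, inv_inv,
    map_div₀]
  push_cast
  by_cases hX : (X : ℂ) = 0
  · simp [hX]; ring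
  by_cases hY : (Y : ℂ) = 0
  · simp [hY]; ring
  field_simp

theorem real_form (X Y ρ τ ξ ζ E G ϑ n x y : ℝ) (hX : 0 < X) (hY : 0 < Y) (hx : 0 ≤ x)
    (hy : 0 ≤ y) (P Q R P' Q' R' : ℝ) :
    2 * (Lam X Y ρ τ ξ ζ ϑ x y (P + P' * Complex.I) (Q + Q' * Complex.I) (R + R' * Complex.I) *
      (n * (Q + Q' * Complex.I) + ((x * y / (X * Y) : ℝ) : ℂ) * (P + P' * Complex.I)
        + ((x * y / (X * Y) : ℝ) : ℂ) * (R + R' * Complex.I))).re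
      + OA X Y τ ξ E ϑ x y (P + P' * Complex.I) (Q + Q' * Complex.I) (R + R' * Complex.I)
      + OB X Y τ ζ G ϑ x y (P + P' * Complex.I) (Q + Q' * Complex.I) (R + R' * Complex.I)
    = Fpl (x / X) (y / Y) ρ τ ξ ζ (2 * E / X ^ 2) (2 * G / Y ^ 2) ϑ n P Q R
      + Fmi (x / X) (y / Y) ρ τ ξ ζ (2 * E / X ^ 2) (2 * G / Y ^ 2) ϑ n P' Q' R' := by
  have n3 : ‖(x : ℂ)‖ = x := by rw [Complex.norm_real, Real.norm_of_nonneg hx]
  have n4 : ‖(y : ℂ)‖ = y := by rw [Complex.norm_real, Real.norm_of_nonneg hy]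
  have nn : ∀ u v : ℝ, ‖(u : ℂ) + v * Complex.I‖ ^ 2 = u ^ 2 + v ^ 2 := by
    intro u v
    rw [Complex.sq_norm, Complex.normSq_add_mul_I]
  unfold Lam OA OB Fpl Fmi
  rw [n3, n4, nn, nn, nn]
  have hc : ∀ u v : ℝ, (starRingEnd ℂ) ((u : ℂ) + v * Complex.I) = u - v * Complex.I := by
    intro u v
    simp [sub_eq_add_neg]
  rw [hc, hc, hc]
  simp only [Complex.conj_ofReal]
  have h2 : (2 : ℂ) = ((2 : ℝ) : ℂ) := by simp
  rw [h2]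
  simp only [pow_two, Complex.mul_re, Complex.mul_im, Complex.add_re, Complex.add_im,
    Complex.sub_re, Complex.sub_im, Complex.ofReal_re, Complex.ofReal_im, Complex.I_re,
    Complex.I_im, mul_zero, zero_mul, mul_one, sub_zero, add_zero, zero_add, zero_sub, sub_self]
  have hX' : X ≠ 0 := hX.ne'
  have hY' : Y ≠ 0 := hY.ne'
  field_simp
  ring

theorem dirs (a b : ℂ) : ∃ f g : ℂ, ‖f‖ = 1 ∧ ‖g‖ = 1 ∧ a = ‖a‖ * (f * g⁻¹) ∧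
    b = ‖b‖ * (f * g) := by
  refine ⟨Complex.exp (((a.arg + b.arg) / 2 : ℝ) * Complex.I),
    Complex.exp (((b.arg - a.arg) / 2 : ℝ) * Complex.I), Complex.norm_exp_ofReal_mul_I _,
    Complex.norm_exp_ofReal_mul_I _, ?_, ?_⟩
  · rw [← Complex.exp_neg, ← Complex.exp_add]
    conv_lhs => rw [← Complex.norm_mul_exp_arg_mul_I a]
    congr 2
    push_cast
    ring
  · rw [← Complex.exp_add]
    conv_lhs => rw [← Complex.norm_mul_exp_arg_mul_I b]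
    congr 2
    push_cast
    ring

theorem main : S_ROT := by
  intro X Y ρ τ ξ ζ E G ϑ n a b p q r hX hY
  obtain ⟨f, g, hf, hg, ha, hb⟩ := dirs a b
  have hf0 := unit_ne hf
  have hg0 := unit_ne hg
  obtain ⟨P, hP⟩ : ∃ P : ℂ, P = p * (f⁻¹ * g ^ 2) := ⟨_, rfl⟩
  obtain ⟨Q, hQ⟩ : ∃ Q : ℂ, Q = q * f⁻¹ := ⟨_, rfl⟩
  obtain ⟨R, hR⟩ : ∃ R : ℂ, R = r * (f⁻¹ * g⁻¹ ^ 2) := ⟨_, rfl⟩
  have hp : p = P * (f * g⁻¹ ^ 2) := by rw [hP]; field_simp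
  have hq : q = Q * f := by rw [hQ]; field_simp
  have hr : r = R * (f * g ^ 2) := by rw [hR]; field_simp
  refine ⟨P.re, Q.re, R.re, P.im, Q.im, R.im, ?_⟩
  have key := real_form X Y ρ τ ξ ζ E G ϑ n ‖a‖ ‖b‖ hX hY (norm_nonneg a) (norm_nonneg b)
    P.re Q.re R.re P.im Q.im R.im
  rw [Complex.re_add_im, Complex.re_add_im, Complex.re_add_im] at key
  rw [← key]
  have e1 := lam_rot X Y ρ τ ξ ζ ϑ ‖a‖ ‖b‖ (norm_nonneg a) (norm_nonneg b) f g P Q R hf hg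
  have e2 := oa_rot X Y τ ξ E ϑ ‖a‖ ‖b‖ (norm_nonneg a) f g P Q R hf hg
  have e3 := ob_rot X Y τ ζ G ϑ ‖a‖ ‖b‖ (norm_nonneg b) f g P Q R hf hg
  have e4 := vel_rot X Y n ‖a‖ ‖b‖ f g P Q R hf hg
  rw [← ha, ← hb, ← hp, ← hq, ← hr] at e1 e2 e3 e4
  rw [e1, e2, e3, e4]
  congr 4
  field_simp

end Pool.Agent.W357.IW.Rot
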